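import Mathlib
import Pool.Agent.H84R4.Dich

/-!
# Ideal limit point families for `Π⁰₄` ideals

For every Polish space `X` and every `Π⁰₄` ideal on `ω` the family of all sets of ideal limit points
of sequences in `X` is either the family of closed sets or the family of `Fσ` sets.
-/

set_option autoImplicit false

open Filter Topology Set

namespace Pool.Agent.Results.MP_c9b87f_lc.PiFourIdeals

/-- Ideals on `ω`: closed under subsets and finite unions, containing all finite sets, and not
containing `ω`. -/
structure IsIdealOnOmega (I : Set (Set ℕ)) : Prop where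
  subset_mem : ∀ A ∈ I, ∀ B : Set ℕ, B ⊆ A → B ∈ I
  union_mem : ∀ A ∈ I, ∀ B ∈ I, A ∪ B ∈ I
  finite_mem : ∀ A : Set ℕ, A.Finite → A ∈ I
  univ_notMem : Set.univ ∉ I

/-- The copy of a family of subsets of `ω` in the Cantor space `2^ω`. -/
def cantorCopy (I : Set (Set ℕ)) : Set (ℕ → Bool) := {f | {n | f n = true} ∈ I}

/-- `Π⁰₄` sets: countable intersections of countable unions of `Gδ` sets. -/
def IsPiFour {Y : Type*} [TopologicalSpace Y] (s : Set Y) : Prop :=
  ∃ U : ℕ → ℕ → Set Y, (∀ m n, IsGδ (U m n)) ∧ s = ⋂ m, ⋃ n, U m n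

/-- `Σ⁰₂` sets: countable unions of closed sets. -/
def IsSigmaTwo {Y : Type*} [TopologicalSpace Y] (s : Set Y) : Prop :=
  ∃ F : ℕ → Set Y, (∀ n, IsClosed (F n)) ∧ s = ⋃ n, F n

/-- The set of `I`-limit points of `x`: all `η` such that the subsequence of `x` indexed by some
set `S ∉ I` converges to `η`. -/
def limitPoints {X : Type*} [TopologicalSpace X] (I : Set (Set ℕ)) (x : ℕ → X) : Set X :=
  {η | ∃ S : Set ℕ, S ∉ I ∧ Tendsto x (atTop ⊓ 𝓟 S) (𝓝 η)}

/-- The family of all sets of `I`-limit points of sequences in `X`, together with the empty set. -/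
def limitFamily (X : Type*) [TopologicalSpace X] (I : Set (Set ℕ)) : Set (Set X) :=
  {F | ∃ x : ℕ → X, F = limitPoints I x} ∪ {∅}

lemma tends_iff {X : Type*} [TopologicalSpace X] (x : ℕ → X) (S : Set ℕ) (η : X) :
    Tendsto x (atTop ⊓ 𝓟 S) (𝓝 η) ↔ H84R4.Tends x S η := by
  rw [tendsto_nhds, H84R4.Tends]
  refine forall_congr' fun O => forall_congr' fun _ => forall_congr' fun _ => ?_
  rw [mem_inf_principal, ← Nat.cofinite_eq_atTop, mem_cofinite]
  have : {q | q ∈ S → q ∈ x ⁻¹' O}ᶜ = {q | q ∈ S ∧ x q ∉ O} := by
    ext q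
    simp
  rw [this]

lemma limitPoints_eq {X : Type*} [MetricSpace X] (I : Set (Set ℕ)) (x : ℕ → X) :
    limitPoints I x = H84R4.LimSet I x := by
  ext η
  simp only [limitPoints, H84R4.LimSet, mem_ofPred_eq, tends_iff]

lemma exists_repr (I : Set (Set ℕ)) (h4 : IsPiFour (cantorCopy I)) :
    ∃ C : ℕ → ℕ → ℕ → Set (Set ℕ), H84R4.Repr I C := by
  classical
  obtain ⟨U, hU, hIU⟩ := h4
  choose O hO hUO using fun m n => isGδ_iff_eq_iInter_nat.mp (hU m n)
  let χ : Set ℕ → (ℕ → Bool) := fun S n => decide (n ∈ S)
  refine ⟨fun m n k => {S | χ S ∉ O m n k}, ?_, ?_⟩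
  · intro m n k S hS
    have h1 : χ S ∈ O m n k := not_not.mp hS
    obtain ⟨J, u, hu1, hu2⟩ := isOpen_pi_iff.mp (hO m n k) (χ S) h1
    refine ⟨J.sup id + 1, fun S' hS' h2 => h2 (hu2 ?_)⟩
    intro q hq
    have h3 : q < J.sup id + 1 := Nat.lt_succ_of_le (Finset.le_sup (f := id) hq)
    have h4 : χ S' q = χ S q := by
      simp only [χ]
      exact decide_eq_decide.mpr (hS' q h3)
    rw [h4]
    exact (hu1 q hq).2
  · intro S
    have h1 : S ∈ I ↔ χ S ∈ cantorCopy I := by
      simp [cantorCopy, χ]
    rw [h1, hIU]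
    simp only [mem_iInter, mem_iUnion, hUO, mem_ofPred_eq]
    push Not
    rfl

/-- For every Polish space `X` and every `Π⁰₄` ideal `I` on `ω`, the family of sets of `I`-limit
points of sequences in `X` (with the empty set added) is the family of all closed subsets of `X` or
the family of all `Fσ` subsets of `X`. -/
theorem result {X : Type*} [TopologicalSpace X] [PolishSpace X] (I : Set (Set ℕ))
    (hI : IsIdealOnOmega I) (h4 : IsPiFour (cantorCopy I)) :
    limitFamily X I = {F | IsClosed F} ∨ limitFamily X I = {F | IsSigmaTwo F} := by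
  classical
  letI : MetricSpace X := TopologicalSpace.metrizableSpaceMetric X
  obtain ⟨C, hC⟩ := exists_repr I h4
  have hdown : ∀ A ∈ I, ∀ B ⊆ A, B ∈ I := hI.subset_mem
  by_cases hall : ∀ y : ℕ → X, IsClosed (H84R4.LimSet I y)
  · left
    ext F
    constructor
    · rintro (⟨x, rfl⟩ | hF)
      · rw [limitPoints_eq]
        exact hall x
      · rw [mem_singleton_iff] at hF
        subst hF
        exact isClosed_empty
    · intro hF
      rcases F.eq_empty_or_nonempty with rfl | hne
      · exact Or.inr rfl
      · obtain ⟨x, hx⟩ := H84R4.limSet_closed_realised I C hC hdown hI.union_mem hI.finite_mem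
          hI.univ_notMem F hne hF
        exact Or.inl ⟨x, by rw [limitPoints_eq, hx]⟩
  · right
    push Not at hall
    obtain ⟨y, hy⟩ := hall
    obtain ⟨η, hη, hη'⟩ : ∃ η, η ∈ closure (H84R4.LimSet I y) ∧ η ∉ H84R4.LimSet I y := by
      by_contra hcon
      push Not at hcon
      exact hy (isClosed_of_closure_subset hcon)
    ext F
    constructor
    · rintro (⟨x, rfl⟩ | hF)
      · rw [limitPoints_eq]
        obtain ⟨K, hK1, hK2, hK3⟩ := H84R4.limSet_cov I C hC hdown hI.union_mem hI.finite_mem x
        exact ⟨K, hK1, Subset.antisymm hK2 hK3⟩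
      · rw [mem_singleton_iff] at hF
        subst hF
        exact ⟨fun _ => ∅, fun _ => isClosed_empty, by simp⟩
    · rintro ⟨K, hK1, rfl⟩
      rcases (⋃ n, K n).eq_empty_or_nonempty with he | hne
      · exact Or.inr he
      · obtain ⟨z, hz⟩ := hne
        obtain ⟨n0, hn0⟩ := mem_iUnion.mp hz
        let K' : ℕ → Set X := fun n => if (K n).Nonempty then K n else K n0
        have hK' : ∀ n, IsClosed (K' n) ∧ (K' n).Nonempty := by
          intro n
          by_cases h : (K n).Nonempty
          · simp only [K', if_pos h]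
            exact ⟨hK1 n, h⟩
          · simp only [K', if_neg h]
            exact ⟨hK1 n0, ⟨z, hn0⟩⟩
        have hKK : ⋃ n, K' n = ⋃ n, K n := by
          apply Subset.antisymm
          · refine iUnion_subset fun n => ?_
            by_cases h : (K n).Nonempty
            · simp only [K', if_pos h]
              exact subset_iUnion _ _
            · simp only [K', if_neg h]
              exact subset_iUnion _ _
          · refine iUnion_subset fun n => ?_
            rcases (K n).eq_empty_or_nonempty with h | h
            · rw [h]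
              exact empty_subset _
            · have : K n = K' n := by simp only [K', if_pos h]
              rw [this]
              exact subset_iUnion _ _
        obtain ⟨x, hx⟩ := H84R4.limSet_fsigma_realised I C hC hdown hI.union_mem hI.finite_mem y η
          hη hη' K' (fun n => (hK' n).1) (fun n => (hK' n).2)
        exact Or.inl ⟨x, by rw [limitPoints_eq, hx, hKK]⟩

end Pool.Agent.Results.MP_c9b87f_lc.PiFourIdeals
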